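import Pool.Agent.Run7.h148.AX.Stm3

/-!
Project AX: derivatives along curves in `E3`.
-/

set_option autoImplicit false

open MeasureTheory Set Filter Topology
open scoped ENNReal ContDiff FourierTransform

namespace Pool.Agent.Run7.h920.AX

open Pool.Agent.Run7.h148.AX

lemma hasDerivAt_E3 {c : ℝ → E3} {c' : E3} {t : ℝ} (h : ∀ i, HasDerivAt (fun s => c s i) (c' i) t) :
    HasDerivAt c c' t := by
  rw [hasDerivAt_iff_hasFDerivAt, ← hasFDerivWithinAt_univ, hasFDerivWithinAt_euclidean]
  intro i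
  rw [hasFDerivWithinAt_univ]
  have h1 := (h i).hasFDerivAt
  refine h1.congr_fderiv ?_
  ext
  simp

/-- the derivative of a smooth function along a curve in terms of `pd` -/
lemma fd_eq (f : E3 → ℝ) (x v : E3) :
    fderiv ℝ f x v = v 0 * pd 0 f x + v 1 * pd 1 f x + v 2 * pd 2 f x := by
  have h : v = v 0 • EuclideanSpace.single 0 (1 : ℝ) + v 1 • EuclideanSpace.single 1 (1 : ℝ)
      + v 2 • EuclideanSpace.single 2 (1 : ℝ) := by
    ext i
    fin_cases i <;> simp
  conv_lhs => rw [h]
  simp only [map_add, map_smul, smul_eq_mul, pd]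

lemma deriv_comp {f : E3 → ℝ} (hf : Differentiable ℝ f) {c : ℝ → E3} {c' : E3} {t : ℝ}
    (h : ∀ i, HasDerivAt (fun s => c s i) (c' i) t) :
    HasDerivAt (fun s => f (c s)) (c' 0 * pd 0 f (c t) + c' 1 * pd 1 f (c t) + c' 2 * pd 2 f (c t)) t := by
  have h1 := (hf (c t)).hasFDerivAt.comp_hasDerivAt t (hasDerivAt_E3 h)
  rw [fd_eq] at h1
  exact h1

lemma diff_coord {Φ : E3 → E3} (h : ContDiff ℝ ∞ Φ) (k : Fin 3) : ContDiff ℝ ∞ (fun y => Φ y k) :=
  (contDiff_euclidean.1 h) k

lemma diff_coord' {Φ : E3 → E3} (h : ContDiff ℝ ∞ Φ) (k : Fin 3) : Differentiable ℝ (fun y => Φ y k) :=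
  (diff_coord h k).differentiable (by simp)

@[simp] lemma rt_apply_zero (θ : ℝ) (x : E3) : rt θ x 0 = Real.cos θ * x 0 - Real.sin θ * x 1 := by
  simp [rt]
@[simp] lemma rt_apply_one (θ : ℝ) (x : E3) : rt θ x 1 = Real.sin θ * x 0 + Real.cos θ * x 1 := by
  simp [rt]
@[simp] lemma rt_apply_two (θ : ℝ) (x : E3) : rt θ x 2 = x 2 := by
  simp [rt]

lemma rt_zero (x : E3) : rt 0 x = x := by
  ext i
  fin_cases i <;> simp

theorem t_INF : S_INF := by
  intro Φ hΦ hax x
  have hc : ∀ i, HasDerivAt (fun s => rt s x i) ((!₂[-x 1, x 0, 0] : E3) i) 0 := by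
    intro i
    fin_cases i
    · show HasDerivAt (fun s => rt s x 0) (-x 1) 0
      have h1 := ((Real.hasDerivAt_cos 0).mul_const (x 0)).sub ((Real.hasDerivAt_sin 0).mul_const (x 1))
      have h2 : (fun s => rt s x 0) = fun s => Real.cos s * x 0 - Real.sin s * x 1 := by
        funext s
        rw [rt_apply_zero]
      rw [h2]
      exact h1.congr_deriv (by simp)
    · show HasDerivAt (fun s => rt s x 1) (x 0) 0
      have h1 := ((Real.hasDerivAt_sin 0).mul_const (x 0)).add ((Real.hasDerivAt_cos 0).mul_const (x 1))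
      have h2 : (fun s => rt s x 1) = fun s => Real.sin s * x 0 + Real.cos s * x 1 := by
        funext s
        rw [rt_apply_one]
      rw [h2]
      exact h1.congr_deriv (by simp)
    · show HasDerivAt (fun s => rt s x 2) 0 0
      have h2 : (fun s => rt s x 2) = fun _ => x 2 := by
        funext s
        rw [rt_apply_two]
      rw [h2]
      exact hasDerivAt_const _ _
  have hl : ∀ k, HasDerivAt (fun s => Φ (rt s x) k)
      (-x 1 * pd 0 (fun y => Φ y k) x + x 0 * pd 1 (fun y => Φ y k) x) 0 := by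
    intro k
    have h1 := deriv_comp (diff_coord' hΦ k) hc
    rw [rt_zero] at h1
    exact h1.congr_deriv (by simp)
  have hr0 : HasDerivAt (fun s => Φ (rt s x) 0) (-Φ x 1) 0 := by
    have h1 := ((Real.hasDerivAt_cos 0).mul_const (Φ x 0)).sub ((Real.hasDerivAt_sin 0).mul_const (Φ x 1))
    have h2 : (fun s => Φ (rt s x) 0) = fun s => Real.cos s * Φ x 0 - Real.sin s * Φ x 1 := by
      funext s
      rw [hax, rt_apply_zero]
    rw [h2]
    exact h1.congr_deriv (by simp)
  have hr1 : HasDerivAt (fun s => Φ (rt s x) 1) (Φ x 0) 0 := by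
    have h1 := ((Real.hasDerivAt_sin 0).mul_const (Φ x 0)).add ((Real.hasDerivAt_cos 0).mul_const (Φ x 1))
    have h2 : (fun s => Φ (rt s x) 1) = fun s => Real.sin s * Φ x 0 + Real.cos s * Φ x 1 := by
      funext s
      rw [hax, rt_apply_one]
    rw [h2]
    exact h1.congr_deriv (by simp)
  have hr2 : HasDerivAt (fun s => Φ (rt s x) 2) 0 0 := by
    have h1 := hasDerivAt_const (0 : ℝ) (Φ x 2)
    have h2 : (fun s => Φ (rt s x) 2) = fun s => Φ x 2 := by
      funext s
      rw [hax, rt_apply_two]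
    rw [h2]
    exact h1
  exact ⟨(hl 0).unique hr0, (hl 1).unique hr1, (hl 2).unique hr2⟩

theorem t_CON : S_CON := by
  intro m S y hne hsc hadd hsep
  have h0 : (0 : Fin m → ℝ) ∈ S := by
    obtain ⟨s, hs⟩ := hne
    have := hsc s hs 0 le_rfl
    simpa using this
  -- the closure is a cone
  have hcone : ∀ s ∈ closure S, ∀ c : ℝ, 0 ≤ c → c • s ∈ closure S := by
    intro s hs c hc
    have h1 : Continuous (fun z : Fin m → ℝ => c • z) := continuous_const_smul c
    exact map_mem_closure h1 hs (fun z hz => hsc z hz c hc)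
  have haddc : ∀ s ∈ closure S, ∀ s' ∈ closure S, s + s' ∈ closure S := by
    intro s hs s' hs'
    have h1 : (s, s') ∈ closure (S ×ˢ S) := by
      rw [closure_prod_eq]
      exact ⟨hs, hs'⟩
    have h2 := map_mem_closure (t := closure S) (continuous_add (M := Fin m → ℝ)) h1
      (fun z hz => hadd z.1 hz.1 z.2 hz.2)
    simpa using h2
  have hconv : Convex ℝ (closure S) := by
    intro a ha b hb u v hu hv _
    exact haddc _ (hcone a ha u hu) _ (hcone b hb v hv)
  by_contra hy
  obtain ⟨f, r, hfr, hry⟩ := geometric_hahn_banach_closed_point hconv isClosed_closure hy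
  have hr0 : 0 < r := by
    have := hfr 0 (subset_closure h0)
    simpa using this
  have hf : ∀ z : Fin m → ℝ, f z = ∑ i, f (Pi.single i 1) * z i := by
    intro z
    have h1 : z = ∑ i, z i • (Pi.single i (1 : ℝ) : Fin m → ℝ) := by
      ext j
      simp [Finset.sum_apply, Pi.single_apply]
    conv_lhs => rw [h1]
    rw [map_sum]
    refine Finset.sum_congr rfl fun i _ => ?_
    rw [map_smul, smul_eq_mul, mul_comm]
  have hle : ∀ s ∈ S, (∑ i, f (Pi.single i 1) * s i) ≤ 0 := by
    intro s hs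
    rw [← hf]
    by_contra hpos
    push Not at hpos
    have h1 := hfr ((r / f s) • s) (subset_closure (hsc s hs _ (div_nonneg hr0.le hpos.le)))
    rw [map_smul, smul_eq_mul, div_mul_cancel₀ _ hpos.ne'] at h1
    exact lt_irrefl _ h1
  have h2 := hsep _ hle
  rw [← hf] at h2
  linarith

end Pool.Agent.Run7.h920.AX
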