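import Pool.Agent.Run7.h920.AX.Bas

/-!
Project AX: from the quadratic forms to the pointwise inequality.
-/

set_option autoImplicit false

open MeasureTheory Set Filter Topology
open scoped ENNReal ContDiff FourierTransform

namespace Pool.Agent.Run7.h920.AX

open Pool.Agent.Run7.h148.AX

@[simp] lemma PP_zero (α β : ℝ) (x : E3) : PP α β x 0 = α * x 0 - β * x 1 := by simp [PP]
@[simp] lemma PP_one (α β : ℝ) (x : E3) : PP α β x 1 = α * x 1 + β * x 0 := by simp [PP]
@[simp] lemma PP_two (α β : ℝ) (x : E3) : PP α β x 2 = 0 := by simp [PP]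

lemma PP_rt (α β θ : ℝ) (x : E3) : PP α β (rt θ x) = rt θ (PP α β x) := by
  ext i
  fin_cases i
  · show PP α β (rt θ x) 0 = rt θ (PP α β x) 0
    simp only [PP_zero, PP_one, rt_apply_zero, rt_apply_one]
    ring
  · show PP α β (rt θ x) 1 = rt θ (PP α β x) 1
    simp only [PP_zero, PP_one, rt_apply_zero, rt_apply_one]
    ring
  · show PP α β (rt θ x) 2 = rt θ (PP α β x) 2
    simp only [PP_two, rt_apply_two]

lemma QQ_eq (α β : ℝ) (Φ : E3 → E3) (x : E3) : QQ α β Φ x =
    PP α β x 0 * (PP α β x 0 * pd 0 (fun y => Φ y 0) x + PP α β x 1 * pd 1 (fun y => Φ y 0) x)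
    + PP α β x 1 * (PP α β x 0 * pd 0 (fun y => Φ y 1) x + PP α β x 1 * pd 1 (fun y => Φ y 1) x) := by
  simp only [QQ, Fin.sum_univ_three, PP_two]
  ring

/-- derivative of a rotated field in a horizontal direction -/
lemma rot_deriv {Φ : E3 → E3} (hΦ : ContDiff ℝ ∞ Φ) (hax : Axi Φ) (θ : ℝ) (x v : E3) (hv : v 2 = 0) :
    (rt θ v 0 * pd 0 (fun y => Φ y 0) (rt θ x) + rt θ v 1 * pd 1 (fun y => Φ y 0) (rt θ x)
      = Real.cos θ * (v 0 * pd 0 (fun y => Φ y 0) x + v 1 * pd 1 (fun y => Φ y 0) x)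
        - Real.sin θ * (v 0 * pd 0 (fun y => Φ y 1) x + v 1 * pd 1 (fun y => Φ y 1) x)) ∧
    (rt θ v 0 * pd 0 (fun y => Φ y 1) (rt θ x) + rt θ v 1 * pd 1 (fun y => Φ y 1) (rt θ x)
      = Real.sin θ * (v 0 * pd 0 (fun y => Φ y 0) x + v 1 * pd 1 (fun y => Φ y 0) x)
        + Real.cos θ * (v 0 * pd 0 (fun y => Φ y 1) x + v 1 * pd 1 (fun y => Φ y 1) x)) := by
  have hd := fun k => diff_coord' hΦ k
  have hc : ∀ i, HasDerivAt (fun t : ℝ => (x + t • v) i) (v i) 0 := by
    intro i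
    have h2 : (fun t : ℝ => (x + t • v) i) = fun t => x i + t * v i := by
      funext t
      simp
    rw [h2]
    exact (((hasDerivAt_id (0 : ℝ)).mul_const (v i)).const_add (x i)).congr_deriv (by simp)
  have hc' : ∀ i, HasDerivAt (fun t : ℝ => rt θ (x + t • v) i) (rt θ v i) 0 := by
    intro i
    fin_cases i
    · show HasDerivAt (fun t : ℝ => rt θ (x + t • v) 0) (rt θ v 0) 0
      simp only [rt_apply_zero]
      exact ((hc 0).const_mul _).sub ((hc 1).const_mul _)
    · show HasDerivAt (fun t : ℝ => rt θ (x + t • v) 1) (rt θ v 1) 0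
      simp only [rt_apply_one]
      exact ((hc 0).const_mul _).add ((hc 1).const_mul _)
    · show HasDerivAt (fun t : ℝ => rt θ (x + t • v) 2) (rt θ v 2) 0
      simp only [rt_apply_two]
      exact hc 2
  have hx0 : x + (0 : ℝ) • v = x := by simp
  have hl : ∀ k, HasDerivAt (fun t : ℝ => Φ (rt θ (x + t • v)) k)
      (rt θ v 0 * pd 0 (fun y => Φ y k) (rt θ x) + rt θ v 1 * pd 1 (fun y => Φ y k) (rt θ x)) 0 := by
    intro k
    have h1 := deriv_comp (hd k) hc'
    rw [hx0] at h1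
    exact h1.congr_deriv (by simp [hv])
  have hr : ∀ k, HasDerivAt (fun t : ℝ => Φ (x + t • v) k)
      (v 0 * pd 0 (fun y => Φ y k) x + v 1 * pd 1 (fun y => Φ y k) x) 0 := by
    intro k
    have h1 := deriv_comp (hd k) hc
    rw [hx0] at h1
    exact h1.congr_deriv (by simp [hv])
  constructor
  · have h1 := ((hr 0).const_mul (Real.cos θ)).sub ((hr 1).const_mul (Real.sin θ))
    have h2 : (fun t : ℝ => Φ (rt θ (x + t • v)) 0)
        = fun t : ℝ => Real.cos θ * Φ (x + t • v) 0 - Real.sin θ * Φ (x + t • v) 1 := by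
      funext t
      rw [hax, rt_apply_zero]
    have h3 := hl 0
    rw [h2] at h3
    exact h3.unique h1
  · have h1 := ((hr 0).const_mul (Real.sin θ)).add ((hr 1).const_mul (Real.cos θ))
    have h2 : (fun t : ℝ => Φ (rt θ (x + t • v)) 1)
        = fun t : ℝ => Real.sin θ * Φ (x + t • v) 0 + Real.cos θ * Φ (x + t • v) 1 := by
      funext t
      rw [hax, rt_apply_one]
    have h3 := hl 1
    rw [h2] at h3
    exact h3.unique h1

lemma QQ_rt {Φ : E3 → E3} (hΦ : ContDiff ℝ ∞ Φ) (hax : Axi Φ) (α β θ : ℝ) (x : E3) :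
    QQ α β Φ (rt θ x) = QQ α β Φ x := by
  obtain ⟨h0, h1⟩ := rot_deriv hΦ hax θ x (PP α β x) (PP_two α β x)
  rw [QQ_eq, QQ_eq, PP_rt, h0, h1]
  simp only [rt_apply_zero, rt_apply_one]
  have hcs := Real.cos_sq_add_sin_sq θ
  set w0 := PP α β x 0 * pd 0 (fun y => Φ y 0) x + PP α β x 1 * pd 1 (fun y => Φ y 0) x
  set w1 := PP α β x 0 * pd 0 (fun y => Φ y 1) x + PP α β x 1 * pd 1 (fun y => Φ y 1) x
  linear_combination (PP α β x 0 * w0 + PP α β x 1 * w1) * hcs

lemma continuous_pd {f : E3 → ℝ} (hf : ContDiff ℝ ∞ f) (j : Fin 3) : Continuous (pd j f) := by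
  unfold pd
  exact (hf.continuous_fderiv (by simp)).clm_apply continuous_const

lemma continuous_PP (α β : ℝ) (i : Fin 3) : Continuous (fun x => PP α β x i) := by
  fin_cases i
  · show Continuous (fun x => PP α β x 0)
    simp only [PP_zero]
    fun_prop
  · show Continuous (fun x => PP α β x 1)
    simp only [PP_one]
    fun_prop
  · show Continuous (fun x => PP α β x 2)
    simp only [PP_two]
    fun_prop

lemma continuous_QQ {Φ : E3 → E3} (hΦ : ContDiff ℝ ∞ Φ) (α β : ℝ) : Continuous (QQ α β Φ) := by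
  have h : QQ α β Φ = fun x =>
    PP α β x 0 * (PP α β x 0 * pd 0 (fun y => Φ y 0) x + PP α β x 1 * pd 1 (fun y => Φ y 0) x)
    + PP α β x 1 * (PP α β x 0 * pd 0 (fun y => Φ y 1) x + PP α β x 1 * pd 1 (fun y => Φ y 1) x) :=
    funext fun x => QQ_eq α β Φ x
  rw [h]
  have p0 := continuous_PP α β 0
  have p1 := continuous_PP α β 1
  have d00 := continuous_pd (diff_coord hΦ 0) 0
  have d10 := continuous_pd (diff_coord hΦ 0) 1
  have d01 := continuous_pd (diff_coord hΦ 1) 0
  have d11 := continuous_pd (diff_coord hΦ 1) 1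
  exact (p0.mul ((p0.mul d00).add (p1.mul d10))).add (p1.mul ((p0.mul d01).add (p1.mul d11)))

lemma exists_rt (x : E3) : ∃ θ, x = rt θ (!₂[Real.sqrt (x 0 ^ 2 + x 1 ^ 2), 0, x 2] : E3) := by
  set z : ℂ := ⟨x 0, x 1⟩ with hz
  have hn : ‖z‖ = Real.sqrt (x 0 ^ 2 + x 1 ^ 2) := by
    rw [Complex.norm_def, Complex.normSq_apply]
    congr 1
    simp only [hz]
    ring
  have hc := Complex.norm_mul_cos_arg z
  have hs := Complex.norm_mul_sin_arg z
  rw [hn] at hc hs
  refine ⟨z.arg, ?_⟩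
  ext i
  fin_cases i
  · show x 0 = rt z.arg (!₂[Real.sqrt (x 0 ^ 2 + x 1 ^ 2), 0, x 2] : E3) 0
    rw [rt_apply_zero]
    have h : z.re = x 0 := rfl
    rw [h] at hc
    simp
    linarith
  · show x 1 = rt z.arg (!₂[Real.sqrt (x 0 ^ 2 + x 1 ^ 2), 0, x 2] : E3) 1
    rw [rt_apply_one]
    have h : z.im = x 1 := rfl
    rw [h] at hs
    simp
    linarith
  · simp

theorem t_RA1 : S_RA1 := by
  intro Φ hΦ hax hqf α β x₀
  by_contra hneg
  push Not at hneg
  set F : ℝ × ℝ → ℝ := fun p => QQ α β Φ (!₂[Real.sqrt p.1, 0, p.2] : E3) with hF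
  have hFc : Continuous F := by
    refine (continuous_QQ hΦ α β).comp ?_
    refine (PiLp.continuous_toLp 2 _).comp (continuous_pi fun i => ?_)
    fin_cases i
    · exact Real.continuous_sqrt.comp continuous_fst
    · exact continuous_const
    · exact continuous_snd
  have hQF : ∀ x : E3, QQ α β Φ x = F (x 0 ^ 2 + x 1 ^ 2, x 2) := by
    intro x
    obtain ⟨θ, hθ⟩ := exists_rt x
    conv_lhs => rw [hθ]
    rw [QQ_rt hΦ hax]
  set ρ₀ := x₀ 0 ^ 2 + x₀ 1 ^ 2 with hρ₀
  have hF0 : F (ρ₀, x₀ 2) < 0 := by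
    rw [← hQF]
    exact hneg
  obtain ⟨δ, hδ, hball⟩ := Metric.eventually_nhds_iff.1 ((hFc.tendsto (ρ₀, x₀ 2)).eventually
    (gt_mem_nhds hF0))
  -- the bump
  let χ : ContDiffBump (0 : ℝ) := ⟨1 / 2, 1, by norm_num, by norm_num⟩
  have hχ0 : χ 0 = 1 := χ.one_of_mem_closedBall (by simp [χ])
  have hχs : ∀ u : ℝ, 1 ≤ |u| → χ u = 0 := by
    intro u hu
    exact χ.zero_of_le_dist (by simpa [χ, Real.dist_eq] using hu)
  set a : E3 → ℝ := fun x => χ ((x 0 ^ 2 + x 1 ^ 2 - ρ₀) / δ) * χ ((x 2 - x₀ 2) / δ) with ha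
  have hcoord : ∀ i : Fin 3, ContDiff ℝ ∞ (fun x : E3 => x i) := fun i => by fun_prop
  have hac : ContDiff ℝ ∞ a := by
    have h1 : ContDiff ℝ ∞ (fun x : E3 => (x 0 ^ 2 + x 1 ^ 2 - ρ₀) / δ) :=
      ((((hcoord 0).pow 2).add ((hcoord 1).pow 2)).sub contDiff_const).div_const δ
    have h2 : ContDiff ℝ ∞ (fun x : E3 => (x 2 - x₀ 2) / δ) :=
      ((hcoord 2).sub contDiff_const).div_const δ
    exact (χ.contDiff.comp h1).mul (χ.contDiff.comp h2)
  have ha0 : ∀ x, a x ≠ 0 → |x 0 ^ 2 + x 1 ^ 2 - ρ₀| < δ ∧ |x 2 - x₀ 2| < δ := by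
    intro x hx
    constructor
    · by_contra h
      push Not at h
      apply hx
      have : χ ((x 0 ^ 2 + x 1 ^ 2 - ρ₀) / δ) = 0 := hχs _ (by
        rw [abs_div, abs_of_pos hδ, le_div_iff₀ hδ, one_mul]
        exact h)
      simp [ha, this]
    · by_contra h
      push Not at h
      apply hx
      have : χ ((x 2 - x₀ 2) / δ) = 0 := hχs _ (by
        rw [abs_div, abs_of_pos hδ, le_div_iff₀ hδ, one_mul]
        exact h)
      simp [ha, this]
  have hacs : HasCompactSupport a := by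
    refine HasCompactSupport.intro (isCompact_closedBall (0 : E3)
      (Real.sqrt (ρ₀ + δ + (|x₀ 2| + δ) ^ 2))) ?_
    intro x hx
    by_contra hne
    obtain ⟨h1, h2⟩ := ha0 x hne
    apply hx
    rw [mem_closedBall_zero_iff, EuclideanSpace.norm_eq]
    apply Real.sqrt_le_sqrt
    rw [Fin.sum_univ_three]
    simp only [Real.norm_eq_abs, sq_abs]
    have h3 := (abs_lt.1 h1).2
    have h4 : |x 2| ≤ |x₀ 2| + δ := by
      have := abs_sub_abs_le_abs_sub (x 2) (x₀ 2)
      linarith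
    have h5 : x 2 ^ 2 ≤ (|x₀ 2| + δ) ^ 2 := by
      rw [← sq_abs (x 2)]
      exact pow_le_pow_left₀ (abs_nonneg _) h4 2
    linarith
  set A : E3 → E3 := fun x => a x • PP α β x with hA
  have hAi : ∀ x i, A x i = a x * PP α β x i := fun x i => by simp [hA]
  have hPs : ContDiff ℝ ∞ (PP α β) := by
    rw [contDiff_euclidean]
    intro i
    fin_cases i
    · show ContDiff ℝ ∞ (fun x => PP α β x 0)
      simp only [PP_zero]
      exact (contDiff_const.mul (hcoord 0)).sub (contDiff_const.mul (hcoord 1))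
    · show ContDiff ℝ ∞ (fun x => PP α β x 1)
      simp only [PP_one]
      exact (contDiff_const.mul (hcoord 1)).add (contDiff_const.mul (hcoord 0))
    · show ContDiff ℝ ∞ (fun x => PP α β x 2)
      simp only [PP_two]
      exact contDiff_const
  have hadm : Adm A := by
    refine ⟨hac.smul hPs, hacs.smul_right, fun x => by rw [hAi, PP_two, mul_zero], ?_⟩
    intro θ x
    have hinv : a (rt θ x) = a x := by
      simp only [ha, rt_apply_zero, rt_apply_one, rt_apply_two]
      have h1 : (Real.cos θ * x 0 - Real.sin θ * x 1) ^ 2 + (Real.sin θ * x 0 + Real.cos θ * x 1) ^ 2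
          = x 0 ^ 2 + x 1 ^ 2 := by
        have hcs := Real.cos_sq_add_sin_sq θ
        linear_combination (x 0 ^ 2 + x 1 ^ 2) * hcs
      rw [h1]
    have h2 : ∀ (r : ℝ) (v : E3), rt θ (r • v) = r • rt θ v := by
      intro r v
      ext i
      fin_cases i
      · show rt θ (r • v) 0 = (r • rt θ v) 0
        simp
        ring
      · show rt θ (r • v) 1 = (r • rt θ v) 1
        simp
        ring
      · show rt θ (r • v) 2 = (r • rt θ v) 2
        simp
    simp only [hA]
    rw [hinv, PP_rt, h2]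
  have hint : ∀ x, (∑ j, ∑ k, A x j * A x k * pd j (fun y => Φ y k) x) = a x ^ 2 * QQ α β Φ x := by
    intro x
    simp only [hAi, QQ, Finset.mul_sum]
    refine Finset.sum_congr rfl fun j _ => Finset.sum_congr rfl fun k _ => ?_
    ring
  have hpos : 0 < ∫ x, -(a x ^ 2 * QQ α β Φ x) := by
    refine Continuous.integral_pos_of_hasCompactSupport_nonneg_nonzero (x := x₀) ?_ ?_ ?_ ?_
    · exact ((hac.continuous.pow 2).mul (continuous_QQ hΦ α β)).neg
    · have h1 : HasCompactSupport (fun x => a x ^ 2 * QQ α β Φ x) := by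
        have h2 : (fun x => a x ^ 2 * QQ α β Φ x) = fun x => a x * (a x * QQ α β Φ x) := by
          funext x
          ring
        rw [h2]
        exact hacs.mul_right
      exact h1.neg
    · intro x
      show 0 ≤ -(a x ^ 2 * QQ α β Φ x)
      by_cases hx : a x = 0
      · rw [hx]
        simp
      · obtain ⟨h1, h2⟩ := ha0 x hx
        have h3 : F (x 0 ^ 2 + x 1 ^ 2, x 2) < 0 := by
          apply hball
          rw [Prod.dist_eq, max_lt_iff]
          exact ⟨by simpa [Real.dist_eq] using h1, by simpa [Real.dist_eq] using h2⟩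
        rw [← hQF] at h3
        have h4 : 0 ≤ a x ^ 2 := sq_nonneg _
        nlinarith
    · have h1 : a x₀ = 1 := by
        simp [ha, ← hρ₀, hχ0]
      rw [h1]
      simp
      exact hneg.ne
  have h := hqf A hadm
  unfold qf at h
  simp only [hint] at h
  rw [integral_neg] at hpos
  linarith

end Pool.Agent.Run7.h920.AX
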