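import Pool.Agent.Run7.h920.AX.Bas

/-!
Project AX: the ray argument.
-/

set_option autoImplicit false

open MeasureTheory Set Filter Topology
open scoped ENNReal ContDiff FourierTransform

namespace Pool.Agent.Run7.h920.AX

open Pool.Agent.Run7.h148.AX

lemma tend_of_coord {c : ℝ → E3} (i : Fin 3) (h : Tendsto (fun s => |c s i|) atTop atTop) :
    Tendsto c atTop (cocompact E3) := by
  rw [← Metric.cobounded_eq_cocompact, ← tendsto_norm_atTop_iff_cobounded]
  refine tendsto_atTop_mono (fun s => ?_) h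
  have := PiLp.norm_apply_le (c s) i
  rwa [Real.norm_eq_abs] at this

/-- the ray through `x` -/
noncomputable def ry (x : E3) (s : ℝ) : E3 := !₂[s * x 0, s * x 1, x 2]

@[simp] lemma ry_zero (x : E3) (s : ℝ) : ry x s 0 = s * x 0 := by simp [ry]
@[simp] lemma ry_one (x : E3) (s : ℝ) : ry x s 1 = s * x 1 := by simp [ry]
@[simp] lemma ry_two (x : E3) (s : ℝ) : ry x s 2 = x 2 := by simp [ry]

lemma ry_at_one (x : E3) : ry x 1 = x := by
  ext i
  fin_cases i <;> simp

lemma ry_tend {x : E3} (hx : x 0 ≠ 0 ∨ x 1 ≠ 0) : Tendsto (ry x) atTop (cocompact E3) := by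
  rcases hx with h | h
  · refine tend_of_coord 0 ?_
    simp only [ry_zero, abs_mul]
    exact (tendsto_abs_atTop_atTop).atTop_mul_const (abs_pos.2 h)
  · refine tend_of_coord 1 ?_
    simp only [ry_one, abs_mul]
    exact (tendsto_abs_atTop_atTop).atTop_mul_const (abs_pos.2 h)

lemma ry_deriv {f : E3 → ℝ} (hf : Differentiable ℝ f) (x : E3) (s : ℝ) :
    HasDerivAt (fun s => f (ry x s)) (x 0 * pd 0 f (ry x s) + x 1 * pd 1 f (ry x s)) s := by
  have hc : ∀ i, HasDerivAt (fun s => ry x s i) ((!₂[x 0, x 1, 0] : E3) i) s := by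
    intro i
    fin_cases i
    · show HasDerivAt (fun s => ry x s 0) (x 0) s
      have h2 : (fun s => ry x s 0) = fun s => s * x 0 := by
        funext s
        rw [ry_zero]
      rw [h2]
      exact ((hasDerivAt_id s).mul_const (x 0)).congr_deriv (by simp)
    · show HasDerivAt (fun s => ry x s 1) (x 1) s
      have h2 : (fun s => ry x s 1) = fun s => s * x 1 := by
        funext s
        rw [ry_one]
      rw [h2]
      exact ((hasDerivAt_id s).mul_const (x 1)).congr_deriv (by simp)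
    · show HasDerivAt (fun s => ry x s 2) 0 s
      have h2 : (fun s => ry x s 2) = fun _ => x 2 := by
        funext s
        rw [ry_two]
      rw [h2]
      exact hasDerivAt_const _ _
  exact (deriv_comp hf hc).congr_deriv (by simp)

lemma axis_zero {Φ : E3 → E3} (hax : Axi Φ) {x : E3} (h0 : x 0 = 0) (h1 : x 1 = 0) :
    Φ x 0 = 0 ∧ Φ x 1 = 0 := by
  have h : rt Real.pi x = x := by
    ext i
    fin_cases i <;> simp [h0, h1]
  have h2 := hax Real.pi x
  rw [h] at h2
  have h3 : Φ x 0 = rt Real.pi (Φ x) 0 := by rw [← h2]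
  have h4 : Φ x 1 = rt Real.pi (Φ x) 1 := by rw [← h2]
  simp only [rt_apply_zero, rt_apply_one, Real.cos_pi, Real.sin_pi] at h3 h4
  constructor <;> linarith

lemma comp_tend {Φ : E3 → E3} (hΦ : Tendsto Φ (cocompact E3) (𝓝 0)) {c : ℝ → E3}
    (hc : Tendsto c atTop (cocompact E3)) (k : Fin 3) :
    Tendsto (fun s => Φ (c s) k) atTop (𝓝 0) := by
  have h1 : Continuous (fun y : E3 => y k) := by fun_prop
  have h2 := (h1.tendsto 0).comp (hΦ.comp hc)
  simpa [Function.comp_def] using h2

theorem t_RA2 : S_INF → S_RA2 := by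
  intro hINF Φ hΦ hax hdiv hdec hQ
  have hd := fun k => diff_coord' hΦ k
  -- expansions
  have hQ11 : ∀ x, QQ 1 0 Φ x = x 0 * (x 0 * pd 0 (fun y => Φ y 0) x + x 1 * pd 1 (fun y => Φ y 0) x)
      + x 1 * (x 0 * pd 0 (fun y => Φ y 1) x + x 1 * pd 1 (fun y => Φ y 1) x) := by
    intro x
    simp only [QQ, PP, Fin.sum_univ_three]
    simp
    ring
  have hgen : ∀ (α β : ℝ) x, QQ α β Φ x = α ^ 2 * QQ 1 0 Φ x
      + α * β * ((-x 1 * (x 0 * pd 0 (fun y => Φ y 0) x + x 1 * pd 1 (fun y => Φ y 0) x)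
          + x 0 * (x 0 * pd 0 (fun y => Φ y 1) x + x 1 * pd 1 (fun y => Φ y 1) x))
        + (x 0 * (-x 1 * pd 0 (fun y => Φ y 0) x + x 0 * pd 1 (fun y => Φ y 0) x)
          + x 1 * (-x 1 * pd 0 (fun y => Φ y 1) x + x 0 * pd 1 (fun y => Φ y 1) x)))
      + β ^ 2 * (-x 1 * (-x 1 * pd 0 (fun y => Φ y 0) x + x 0 * pd 1 (fun y => Φ y 0) x)
          + x 0 * (-x 1 * pd 0 (fun y => Φ y 1) x + x 0 * pd 1 (fun y => Φ y 1) x)) := by
    intro α β x
    rw [hQ11]
    simp only [QQ, PP, Fin.sum_univ_three]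
    simp
    ring
  -- first ray
  have key1 : ∀ x : E3, (x 0 ≠ 0 ∨ x 1 ≠ 0) → ∀ s : ℝ, 0 ≤ s →
      x 0 * Φ (ry x s) 0 + x 1 * Φ (ry x s) 1 = 0 := by
    intro x hx
    set G : ℝ → ℝ := fun s => x 0 * Φ (ry x s) 0 + x 1 * Φ (ry x s) 1 with hG
    have hGd : ∀ s, HasDerivAt G (x 0 * (x 0 * pd 0 (fun y => Φ y 0) (ry x s) + x 1 * pd 1 (fun y => Φ y 0) (ry x s))
        + x 1 * (x 0 * pd 0 (fun y => Φ y 1) (ry x s) + x 1 * pd 1 (fun y => Φ y 1) (ry x s))) s := by
      intro s
      exact ((ry_deriv (hd 0) x s).const_mul (x 0)).add ((ry_deriv (hd 1) x s).const_mul (x 1))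
    have hmono : MonotoneOn G (Ici 0) := by
      refine monotoneOn_of_deriv_nonneg (convex_Ici 0)
        (fun s _ => (hGd s).continuousAt.continuousWithinAt)
        (fun s _ => (hGd s).differentiableAt.differentiableWithinAt) ?_
      intro s hs
      rw [interior_Ici] at hs
      have hs0 : 0 < s := hs
      rw [(hGd s).deriv]
      have h1 := hQ 1 0 (ry x s)
      rw [hQ11] at h1
      simp only [ry_zero, ry_one] at h1
      have h2 : 0 ≤ s ^ 2 * (x 0 * (x 0 * pd 0 (fun y => Φ y 0) (ry x s) + x 1 * pd 1 (fun y => Φ y 0) (ry x s))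
        + x 1 * (x 0 * pd 0 (fun y => Φ y 1) (ry x s) + x 1 * pd 1 (fun y => Φ y 1) (ry x s))) := by
        refine le_of_le_of_eq h1 (by ring)
      exact nonneg_of_mul_nonneg_right h2 (by positivity)
    have hG0 : G 0 = 0 := by
      have h := axis_zero hax (x := ry x 0) (by simp) (by simp)
      simp [hG, h.1, h.2]
    have hlim : Tendsto G atTop (𝓝 0) := by
      have h := ((comp_tend hdec (ry_tend hx) 0).const_mul (x 0)).add
        ((comp_tend hdec (ry_tend hx) 1).const_mul (x 1))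
      simpa using h
    intro s hs
    refine le_antisymm ?_ ?_
    · refine ge_of_tendsto hlim ?_
      filter_upwards [eventually_ge_atTop s] with u hu
      exact hmono hs (le_trans hs hu) hu
    · have := hmono (mem_Ici.2 le_rfl) hs hs
      rwa [hG0] at this
  have hh : ∀ x, x 0 * Φ x 0 + x 1 * Φ x 1 = 0 := by
    intro x
    by_cases hx : x 0 ≠ 0 ∨ x 1 ≠ 0
    · have := key1 x hx 1 zero_le_one
      rwa [ry_at_one] at this
    · push Not at hx
      simp [hx.1, hx.2]
  have hQ11z : ∀ x, QQ 1 0 Φ x = 0 := by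
    intro x
    by_cases hx : x 0 ≠ 0 ∨ x 1 ≠ 0
    · have hGd : HasDerivAt (fun s => x 0 * Φ (ry x s) 0 + x 1 * Φ (ry x s) 1)
        (x 0 * (x 0 * pd 0 (fun y => Φ y 0) (ry x 1) + x 1 * pd 1 (fun y => Φ y 0) (ry x 1))
        + x 1 * (x 0 * pd 0 (fun y => Φ y 1) (ry x 1) + x 1 * pd 1 (fun y => Φ y 1) (ry x 1))) 1 :=
        ((ry_deriv (hd 0) x 1).const_mul (x 0)).add ((ry_deriv (hd 1) x 1).const_mul (x 1))
      have h0 : HasDerivAt (fun s => x 0 * Φ (ry x s) 0 + x 1 * Φ (ry x s) 1) 0 1 := by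
        refine (hasDerivAt_const (1 : ℝ) (0 : ℝ)).congr_of_eventuallyEq ?_
        filter_upwards [eventually_gt_nhds (zero_lt_one' ℝ)] with s hs
        exact key1 x hx s hs.le
      have h1 := hGd.unique h0
      rw [ry_at_one] at h1
      rw [hQ11, h1]
    · push Not at hx
      rw [hQ11]
      simp [hx.1, hx.2]
  -- the mixed term
  have hmix : ∀ x, -x 1 * (x 0 * pd 0 (fun y => Φ y 0) x + x 1 * pd 1 (fun y => Φ y 0) x)
          + x 0 * (x 0 * pd 0 (fun y => Φ y 1) x + x 1 * pd 1 (fun y => Φ y 1) x)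
      = -x 1 * Φ x 0 + x 0 * Φ x 1 := by
    intro x
    obtain ⟨i0, i1, -⟩ := hINF Φ hΦ hax x
    have h1 := hQ 1 1 x
    have h2 := hQ 1 (-1) x
    rw [hgen, hQ11z, i0, i1] at h1 h2
    have h3 := hh x
    nlinarith
  -- second ray
  have hg : ∀ x, -x 1 * Φ x 0 + x 0 * Φ x 1 = 0 := by
    intro x
    by_cases hx : x 0 ≠ 0 ∨ x 1 ≠ 0
    swap
    · push Not at hx
      simp [hx.1, hx.2]
    set G : ℝ → ℝ := fun s => -x 1 * Φ (ry x s) 0 + x 0 * Φ (ry x s) 1 with hG
    have hGd : ∀ s, HasDerivAt G (-x 1 * (x 0 * pd 0 (fun y => Φ y 0) (ry x s) + x 1 * pd 1 (fun y => Φ y 0) (ry x s))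
        + x 0 * (x 0 * pd 0 (fun y => Φ y 1) (ry x s) + x 1 * pd 1 (fun y => Φ y 1) (ry x s))) s := by
      intro s
      exact ((ry_deriv (hd 0) x s).const_mul (-x 1)).add ((ry_deriv (hd 1) x s).const_mul (x 0))
    have hGd' : ∀ s, 0 < s → HasDerivAt G (G s / s) s := by
      intro s hs
      refine (hGd s).congr_deriv ?_
      have h1 := hmix (ry x s)
      simp only [ry_zero, ry_one] at h1
      rw [eq_div_iff hs.ne']
      have h2 : s * ((-x 1 * (x 0 * pd 0 (fun y => Φ y 0) (ry x s) + x 1 * pd 1 (fun y => Φ y 0) (ry x s))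
        + x 0 * (x 0 * pd 0 (fun y => Φ y 1) (ry x s) + x 1 * pd 1 (fun y => Φ y 1) (ry x s))) * s)
          = s * G s := by
        rw [hG]
        simp only
        linear_combination h1
      exact mul_left_cancel₀ hs.ne' h2
    have hconst : ∀ s, 1 ≤ s → G s / s = G 1 := by
      intro s hs
      have hF : ∀ u, 0 < u → HasDerivAt (fun u => G u / u) 0 u := by
        intro u hu
        have h1 := (hGd' u hu).div (hasDerivAt_id u) hu.ne'
        refine h1.congr_deriv ?_
        simp only [id]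
        field_simp
        ring
      have h2 := constant_of_derivWithin_zero (f := fun u => G u / u) (a := 1) (b := s)
        (fun u hu => (hF u (lt_of_lt_of_le one_pos hu.1)).differentiableAt.differentiableWithinAt)
        (fun u hu => ((hF u (lt_of_lt_of_le one_pos hu.1)).hasDerivWithinAt).derivWithin
          ((uniqueDiffOn_Icc (lt_of_le_of_lt hu.1 hu.2)) u ⟨hu.1, hu.2.le⟩)) s ⟨hs, le_rfl⟩
      simpa using h2
    have hlim : Tendsto G atTop (𝓝 0) := by
      have h := ((comp_tend hdec (ry_tend hx) 0).const_mul (-x 1)).add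
        ((comp_tend hdec (ry_tend hx) 1).const_mul (x 0))
      rw [hG]
      simpa using h
    have hlim2 : Tendsto (fun s => G s / s) atTop (𝓝 0) := by
      have h := hlim.mul tendsto_inv_atTop_zero
      simpa [div_eq_mul_inv] using h
    have hlim3 : Tendsto (fun s => G s / s) atTop (𝓝 (G 1)) := by
      refine tendsto_const_nhds.congr' ?_
      filter_upwards [eventually_ge_atTop (1 : ℝ)] with s hs
      exact (hconst s hs).symm
    have h1 := tendsto_nhds_unique hlim3 hlim2
    rw [hG] at h1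
    simp only [ry_at_one] at h1
    exact h1
  have h01 : ∀ x, Φ x 0 = 0 ∧ Φ x 1 = 0 := by
    intro x
    by_cases hx : x 0 ≠ 0 ∨ x 1 ≠ 0
    · have hp : 0 < x 0 ^ 2 + x 1 ^ 2 := by
        rcases hx with h | h
        · positivity
        · positivity
      have a := hh x
      have b := hg x
      have e0 : (x 0 ^ 2 + x 1 ^ 2) * Φ x 0 = 0 := by linear_combination x 0 * a - x 1 * b
      have e1 : (x 0 ^ 2 + x 1 ^ 2) * Φ x 1 = 0 := by linear_combination x 1 * a + x 0 * b
      exact ⟨(mul_eq_zero.1 e0).resolve_left hp.ne', (mul_eq_zero.1 e1).resolve_left hp.ne'⟩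
    · push Not at hx
      exact axis_zero hax hx.1 hx.2
  have hf0 : (fun y => Φ y 0) = fun _ => (0 : ℝ) := funext fun y => (h01 y).1
  have hf1 : (fun y => Φ y 1) = fun _ => (0 : ℝ) := funext fun y => (h01 y).2
  have h22 : ∀ x, pd 2 (fun y => Φ y 2) x = 0 := by
    intro x
    have h := hdiv x
    rw [Fin.sum_univ_three, hf0, hf1] at h
    simpa [pd] using h
  have h2 : ∀ x, Φ x 2 = 0 := by
    intro x
    set c : ℝ → E3 := fun s => !₂[x 0, x 1, x 2 + s] with hc
    have hc0 : ∀ s, c s 0 = x 0 := fun s => by simp [hc]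
    have hc1 : ∀ s, c s 1 = x 1 := fun s => by simp [hc]
    have hc2 : ∀ s, c s 2 = x 2 + s := fun s => by simp [hc]
    have hcd : ∀ s, HasDerivAt (fun s => Φ (c s) 2) 0 s := by
      intro s
      have h3 : ∀ i, HasDerivAt (fun s => c s i) ((!₂[0, 0, 1] : E3) i) s := by
        intro i
        fin_cases i
        · show HasDerivAt (fun s => c s 0) 0 s
          simp only [hc0]
          exact hasDerivAt_const _ _
        · show HasDerivAt (fun s => c s 1) 0 s
          simp only [hc1]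
          exact hasDerivAt_const _ _
        · show HasDerivAt (fun s => c s 2) 1 s
          simp only [hc2]
          exact (hasDerivAt_id s).const_add (x 2)
      exact (deriv_comp (hd 2) h3).congr_deriv (by simp [h22])
    have hconst : ∀ s, Φ (c s) 2 = Φ (c 0) 2 := fun s =>
      is_const_of_deriv_eq_zero (fun u => (hcd u).differentiableAt) (fun u => (hcd u).deriv) s 0
    have ht : Tendsto c atTop (cocompact E3) := by
      refine tend_of_coord 2 ?_
      simp only [hc2]
      exact tendsto_abs_atTop_atTop.comp (tendsto_const_nhds.add_atTop tendsto_id)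
    have h4 := comp_tend hdec ht 2
    have h5 : Tendsto (fun s => Φ (c s) 2) atTop (𝓝 (Φ (c 0) 2)) := by
      refine tendsto_const_nhds.congr fun s => ?_
      rw [hconst s]
    have h6 := tendsto_nhds_unique h5 h4
    have h7 : c 0 = x := by
      ext i
      fin_cases i <;> simp [hc]
    rwa [h7] at h6
  funext x
  ext i
  fin_cases i
  · exact (h01 x).1
  · exact (h01 x).2
  · exact h2 x

end Pool.Agent.Run7.h920.AX
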